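import Mathlib

set_option autoImplicit false

/-!
The ring of holomorphic functions on the unit disc, realised as a ring of functions on the plane.
-/

namespace Q201.HD

open Metric Set Complex

/-- representatives of the holomorphic functions on the unit disc -/
abbrev HSet : Set (ℂ → ℂ) :=
  {g : ℂ → ℂ | DifferentiableOn ℂ g (Metric.ball (0:ℂ) 1) ∧ ∀ z ∉ Metric.ball (0:ℂ) 1, g z = g 0}

theorem zmem : (0:ℂ) ∈ ball (0:ℂ) 1 := mem_ball_self one_pos

/-- the ring as a subring with known carrier -/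
def HSub : Subring (ℂ → ℂ) where
  carrier := HSet
  mul_mem' := by
    rintro f g ⟨hf, hf'⟩ ⟨hg, hg'⟩
    exact ⟨hf.mul hg, fun z hz => by simp only [Pi.mul_apply]; rw [hf' z hz, hg' z hz]⟩
  one_mem' := ⟨by exact differentiableOn_const _, fun z hz => rfl⟩
  add_mem' := by
    rintro f g ⟨hf, hf'⟩ ⟨hg, hg'⟩
    exact ⟨hf.add hg, fun z hz => by simp only [Pi.add_apply]; rw [hf' z hz, hg' z hz]⟩
  zero_mem' := ⟨by exact differentiableOn_const _, fun z hz => rfl⟩
  neg_mem' := by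
    rintro f ⟨hf, hf'⟩
    exact ⟨hf.neg, fun z hz => by simp only [Pi.neg_apply]; rw [hf' z hz]⟩

theorem closure_eq : Subring.closure HSet = HSub := Subring.closure_eq HSub

/-- the ring of holomorphic functions on the unit disc -/
abbrev R : Type := ↥(Subring.closure HSet)

theorem mem_sub {g : ℂ → ℂ} (h : g ∈ Subring.closure HSet) : g ∈ HSub := by
  rwa [closure_eq] at h

theorem R.diff (f : R) : DifferentiableOn ℂ f.1 (ball (0:ℂ) 1) := (mem_sub f.2).1

theorem R.out (f : R) {z : ℂ} (hz : z ∉ ball (0:ℂ) 1) : f.1 z = f.1 0 := (mem_sub f.2).2 z hz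

theorem R.ext' {f g : R} (h : ∀ z ∈ ball (0:ℂ) 1, f.1 z = g.1 z) : f = g := by
  apply Subtype.ext
  funext z
  by_cases hz : z ∈ ball (0:ℂ) 1
  · exact h z hz
  · rw [f.out hz, g.out hz, h 0 zmem]

open Classical in
/-- the element of the ring given by a holomorphic function -/
noncomputable def mk (F : ℂ → ℂ) (hF : DifferentiableOn ℂ F (ball (0:ℂ) 1)) : R :=
  ⟨fun z => if z ∈ ball (0:ℂ) 1 then F z else F 0, by
    rw [closure_eq]
    refine ⟨hF.congr (fun z hz => by simp only [if_pos hz]), fun z hz => ?_⟩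
    simp only [if_neg hz, if_pos zmem]⟩

theorem mk_apply {F : ℂ → ℂ} (hF : DifferentiableOn ℂ F (ball (0:ℂ) 1)) {z : ℂ}
    (hz : z ∈ ball (0:ℂ) 1) : (mk F hF).1 z = F z := by
  unfold mk
  simp only [if_pos hz]

@[simp] theorem add_apply (f g : R) (z : ℂ) : (f + g).1 z = f.1 z + g.1 z := rfl
@[simp] theorem mul_apply (f g : R) (z : ℂ) : (f * g).1 z = f.1 z * g.1 z := rfl
@[simp] theorem sub_apply (f g : R) (z : ℂ) : (f - g).1 z = f.1 z - g.1 z := rfl
@[simp] theorem neg_apply (f : R) (z : ℂ) : (-f).1 z = -f.1 z := rfl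
@[simp] theorem one_apply (z : ℂ) : (1 : R).1 z = 1 := rfl
@[simp] theorem zero_apply (z : ℂ) : (0 : R).1 z = 0 := rfl

theorem R.at' (f : R) {z : ℂ} (hz : z ∈ ball (0:ℂ) 1) : DifferentiableAt ℂ f.1 z :=
  (f.diff z hz).differentiableAt (isOpen_ball.mem_nhds hz)

theorem isUnit_iff {f : R} : IsUnit f ↔ ∀ z ∈ ball (0:ℂ) 1, f.1 z ≠ 0 := by
  constructor
  · intro h z hz h0
    obtain ⟨g, hg⟩ := h.exists_right_inv
    have := congrArg (fun k : R => k.1 z) hg
    simp only [mul_apply, one_apply, h0, zero_mul] at this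
    exact zero_ne_one this
  · intro h
    refine IsUnit.of_mul_eq_one (mk (fun z => (f.1 z)⁻¹) (f.diff.inv h)) (R.ext' fun z hz => ?_)
    rw [mul_apply, mk_apply _ hz, one_apply, mul_inv_cancel₀ (h z hz)]

/-- the constant function -/
noncomputable def C (c : ℂ) : R := mk (fun _ => c) (differentiableOn_const c)

@[simp] theorem C_apply (c z : ℂ) : (C c).1 z = c := by
  unfold C mk
  simp

/-- the function `z - a` -/
noncomputable def X (a : ℂ) : R := mk (fun z => z - a) (differentiableOn_id.sub_const a)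

theorem X_apply (a : ℂ) {z : ℂ} (hz : z ∈ ball (0:ℂ) 1) : (X a).1 z = z - a := mk_apply _ hz

theorem X_dvd_iff {a : ℂ} (ha : a ∈ ball (0:ℂ) 1) {f : R} : X a ∣ f ↔ f.1 a = 0 := by
  constructor
  · rintro ⟨g, rfl⟩
    rw [mul_apply, X_apply a ha, sub_self, zero_mul]
  · intro h
    refine ⟨mk (dslope f.1 a)
      ((Complex.differentiableOn_dslope (isOpen_ball.mem_nhds ha)).mpr f.diff), R.ext' fun z hz => ?_⟩
    rw [mul_apply, X_apply a hz, mk_apply _ hz]
    have := sub_smul_dslope f.1 a z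
    rw [h, sub_zero, smul_eq_mul] at this
    exact this.symm

theorem hasDerivAt_X {a : ℂ} (ha : a ∈ ball (0:ℂ) 1) : HasDerivAt (X a).1 1 a := by
  have h : (X a).1 =ᶠ[nhds a] fun z => z - a := by
    filter_upwards [isOpen_ball.mem_nhds ha] with z hz using X_apply a hz
  exact ((hasDerivAt_id a).sub_const a).congr_of_eventuallyEq h

theorem R.hasDerivAt (f : R) {z : ℂ} (hz : z ∈ ball (0:ℂ) 1) : HasDerivAt f.1 (deriv f.1 z) z :=
  (f.at' hz).hasDerivAt

theorem X_sq_dvd_iff {a : ℂ} (ha : a ∈ ball (0:ℂ) 1) {f : R} :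
    X a * X a ∣ f ↔ f.1 a = 0 ∧ deriv f.1 a = 0 := by
  constructor
  · rintro ⟨g, rfl⟩
    have h1 : HasDerivAt (X a * X a * g).1 ((1 * (X a).1 a + (X a).1 a * 1) * g.1 a +
        ((X a).1 a * (X a).1 a) * deriv g.1 a) a :=
      ((hasDerivAt_X ha).mul (hasDerivAt_X ha)).mul (g.hasDerivAt ha)
    have h2 : (X a).1 a = 0 := by rw [X_apply a ha, sub_self]
    refine ⟨by rw [mul_apply, mul_apply, h2]; ring, ?_⟩
    rw [h1.deriv, h2]
    ring
  · rintro ⟨h, h'⟩
    obtain ⟨g, rfl⟩ := (X_dvd_iff ha).2 h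
    have h1 : HasDerivAt (X a * g).1 (1 * g.1 a + (X a).1 a * deriv g.1 a) a :=
      (hasDerivAt_X ha).mul (g.hasDerivAt ha)
    have h2 : (X a).1 a = 0 := by rw [X_apply a ha, sub_self]
    rw [h1.deriv, h2, one_mul, zero_mul, add_zero] at h'
    obtain ⟨k, rfl⟩ := (X_dvd_iff ha).2 h'
    exact ⟨k, by ring⟩

theorem irreducible_X {a : ℂ} (ha : a ∈ ball (0:ℂ) 1) : Irreducible (X a) := by
  refine ⟨fun h => isUnit_iff.1 h a ha (by rw [X_apply a ha, sub_self]), ?_⟩
  intro u v h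
  have hval : ∀ z ∈ ball (0:ℂ) 1, z - a = u.1 z * v.1 z := by
    intro z hz
    rw [← X_apply a hz, h]
    rfl
  have hne : ∀ z ∈ ball (0:ℂ) 1, z ≠ a → u.1 z ≠ 0 ∧ v.1 z ≠ 0 := by
    intro z hz hza
    have := hval z hz
    constructor <;> intro h0 <;> rw [h0] at this <;> simp at this <;> exact hza (sub_eq_zero.1 this)
  have hder : HasDerivAt (X a).1 (deriv u.1 a * v.1 a + u.1 a * deriv v.1 a) a := by
    rw [h]
    exact (u.hasDerivAt ha).mul (v.hasDerivAt ha)
  have h1 := hder.unique (hasDerivAt_X ha)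
  by_cases hu : u.1 a = 0
  · right
    rw [isUnit_iff]
    intro z hz
    by_cases hza : z = a
    · subst hza
      intro h0
      rw [hu, h0] at h1
      simp at h1
    · exact (hne z hz hza).2
  · left
    rw [isUnit_iff]
    intro z hz
    by_cases hza : z = a
    · subst hza
      exact hu
    · exact (hne z hz hza).1

theorem Irreducible.exists_zero {p : R} (hp : Irreducible p) :
    ∃ a ∈ ball (0:ℂ) 1, Associated (X a) p := by
  have h := hp.not_isUnit
  rw [isUnit_iff] at h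
  push Not at h
  obtain ⟨a, ha, h0⟩ := h
  refine ⟨a, ha, ?_⟩
  have := (X_dvd_iff ha).2 h0
  exact (irreducible_X ha).associated_of_dvd hp this

end Q201.HD
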