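import Pool.Agent.Q201.HD.Basic

set_option autoImplicit false

/-!
Moduli of units as majorants: the Nevanlinna characteristic is, up to a bounded error, the least value
of `log |F(0)|`, for the units `F` with `|F| ≥ max(1, |f|)` on the disc of radius `r`.
-/

namespace Q201.HD

open Metric Set Complex InnerProductSpace

/-- the Nevanlinna characteristic -/
noncomputable def T (f : R) (r : ℝ) : ℝ := (2 * Real.pi)⁻¹ *
  ∫ θ in (0:ℝ)..(2 * Real.pi), Real.posLog ‖(f : ℂ → ℂ) ((r : ℂ) * Complex.exp ((θ : ℂ) * Complex.I))‖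

theorem T_eq (f : R) (r : ℝ) : T f r = Real.circleAverage (fun w => Real.posLog ‖f.1 w‖) 0 r := by
  unfold T Real.circleAverage
  simp only [circleMap, zero_add, smul_eq_mul]

theorem closedBall_sub {r : ℝ} (hr1 : r < 1) : closedBall (0:ℂ) r ⊆ ball (0:ℂ) 1 :=
  closedBall_subset_ball hr1

theorem R.analytic (f : R) {r : ℝ} (hr1 : r < 1) : AnalyticOnNhd ℂ f.1 (closedBall 0 r) :=
  (f.diff.analyticOnNhd isOpen_ball).mono (closedBall_sub hr1)

theorem integrable_T (f : R) {r : ℝ} (hr : 0 ≤ r) (hr1 : r < 1) :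
    CircleIntegrable (fun w => Real.posLog ‖f.1 w‖) 0 r := by
  apply ContinuousOn.circleIntegrable hr
  have h1 : ContinuousOn f.1 (sphere 0 r) :=
    f.diff.continuousOn.mono (sphere_subset_closedBall.trans (closedBall_sub hr1))
  exact Real.continuous_posLog.comp_continuousOn h1.norm

theorem harmonic_log {F : R} (hF : IsUnit F) {r : ℝ} (hr1 : r < 1) :
    HarmonicOnNhd (fun w => Real.log ‖F.1 w‖) (closedBall 0 r) := fun w hw =>
  (F.analytic hr1 w hw).harmonicAt_log_norm (isUnit_iff.1 hF w (closedBall_sub hr1 hw))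

theorem T_le {f F : R} (hF : IsUnit F) {r : ℝ} (hr : 0 ≤ r) (hr1 : r < 1)
    (h : ∀ w, ‖w‖ ≤ r → 1 ≤ ‖F.1 w‖ ∧ ‖f.1 w‖ ≤ ‖F.1 w‖) : T f r ≤ Real.log ‖F.1 0‖ := by
  have habs : |r| = r := abs_of_nonneg hr
  have h1 : HarmonicOnNhd (fun w => Real.log ‖F.1 w‖) (closedBall 0 |r|) := by
    rw [habs]
    exact harmonic_log hF hr1
  rw [T_eq, ← h1.circleAverage_eq]
  apply Real.circleAverage_mono (integrable_T f hr hr1)
  · exact ContinuousOn.circleIntegrable hr
      ((harmonic_log hF hr1).continuousOn.mono sphere_subset_closedBall)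
  · intro w hw
    rw [habs, mem_sphere_zero_iff_norm] at hw
    obtain ⟨h2, h3⟩ := h w hw.le
    rw [Real.posLog_def]
    apply max_le
    · exact Real.log_nonneg h2
    · by_cases h0 : ‖f.1 w‖ = 0
      · rw [h0]
        show Real.log 0 ≤ _
        rw [Real.log_zero]
        exact Real.log_nonneg h2
      · exact Real.log_le_log (lt_of_le_of_ne (norm_nonneg _) (Ne.symm h0)) h3

theorem harnack {h : ℂ → ℝ} {ρ : ℝ} (hh : HarmonicOnNhd h (closedBall 0 ρ))
    (hpos : ∀ w, ‖w‖ ≤ ρ → 0 ≤ h w) {w : ℂ} (hw : ‖w‖ < ρ) :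
    (ρ - ‖w‖) / (ρ + ‖w‖) * h 0 ≤ h w := by
  have hρ : 0 < ρ := (norm_nonneg w).trans_lt hw
  have habs : |ρ| = ρ := abs_of_pos hρ
  have hw' : w ∈ ball (0:ℂ) ρ := by rwa [mem_ball_zero_iff]
  rw [← hh.circleAverage_re_herglotzRieszKernel_smul hw']
  have h1 : Real.circleAverage h 0 ρ = h 0 := by
    apply InnerProductSpace.HarmonicOnNhd.circleAverage_eq
    rwa [habs]
  have h2 : (ρ - ‖w‖) / (ρ + ‖w‖) * h 0 = Real.circleAverage (fun z => ((ρ - ‖w‖) / (ρ + ‖w‖)) • h z) 0 ρ := by
    rw [Real.circleAverage_fun_smul, h1, smul_eq_mul]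
  have hcont : ContinuousOn h (sphere 0 ρ) := hh.continuousOn.mono sphere_subset_closedBall
  rw [h2]
  apply Real.circleAverage_mono
  · apply ContinuousOn.circleIntegrable hρ.le
    exact hcont.const_smul ((ρ - ‖w‖) / (ρ + ‖w‖))
  · apply ContinuousOn.circleIntegrable hρ.le
    apply ContinuousOn.smul _ hcont
    exact Complex.continuous_re.comp_continuousOn (by
      have := continuousOn_herglotzRieszKernel_sphere hw'
      rwa [habs] at this)
  · intro z hz
    rw [habs] at hz
    have h3 := le_re_herglotzRieszKernel hz hw'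
    simp only [sub_zero] at h3
    simp only [Pi.smul_apply', smul_eq_mul]
    apply mul_le_mul_of_nonneg_right _ (hpos z (by rw [mem_sphere_zero_iff_norm] at hz; exact hz.le))
    simpa [herglotzRieszKernel_def] using h3

/-! ### Approximation of continuous functions on a circle -/

theorem trig_poly {r : ℝ} (hr : 0 < r) (p : C(AddCircle (2 * Real.pi), ℂ))
    (hp : p ∈ Submodule.span ℂ (Set.range (@fourier (2 * Real.pi)))) :
    ∃ P Q : Polynomial ℂ, ∀ x : AddCircle (2 * Real.pi),
      p x = P.eval ((r : ℂ) * (AddCircle.toCircle x : ℂ)) +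
        (starRingEnd ℂ) (Q.eval ((r : ℂ) * (AddCircle.toCircle x : ℂ))) := by
  have hr0 : (r : ℂ) ≠ 0 := by exact_mod_cast hr.ne'
  induction hp using Submodule.span_induction with
  | mem p hp =>
    obtain ⟨n, rfl⟩ := hp
    have hmul : ∀ (m : ℕ) (x : AddCircle (2 * Real.pi)), ((AddCircle.toCircle x : ℂ)) ^ m =
        (Polynomial.C ((r : ℂ)⁻¹ ^ m) * Polynomial.X ^ m : Polynomial ℂ).eval
          ((r : ℂ) * (AddCircle.toCircle x : ℂ)) := by
      intro m x
      rw [Polynomial.eval_mul, Polynomial.eval_C, Polynomial.eval_pow, Polynomial.eval_X, mul_pow,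
        ← mul_assoc, ← mul_pow, inv_mul_cancel₀ hr0, one_pow, one_mul]
    rcases Int.eq_nat_or_neg n with ⟨m, rfl | rfl⟩
    · refine ⟨Polynomial.C ((r : ℂ)⁻¹ ^ m) * Polynomial.X ^ m, 0, fun x => ?_⟩
      rw [Polynomial.eval_zero, map_zero, add_zero, ← hmul, fourier_apply, AddCircle.toCircle_zsmul]
      simp
    · refine ⟨0, Polynomial.C ((r : ℂ)⁻¹ ^ m) * Polynomial.X ^ m, fun x => ?_⟩
      rw [Polynomial.eval_zero, zero_add, ← hmul, fourier_neg, fourier_apply,
        AddCircle.toCircle_zsmul]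
      simp
  | zero => exact ⟨0, 0, fun x => by simp⟩
  | add p q _ _ hp hq =>
    obtain ⟨P, Q, h⟩ := hp
    obtain ⟨P', Q', h'⟩ := hq
    refine ⟨P + P', Q + Q', fun x => ?_⟩
    rw [ContinuousMap.add_apply, h, h', Polynomial.eval_add, Polynomial.eval_add, map_add]
    ring
  | smul c p _ hp =>
    obtain ⟨P, Q, h⟩ := hp
    refine ⟨Polynomial.C c * P, Polynomial.C ((starRingEnd ℂ) c) * Q, fun x => ?_⟩
    rw [ContinuousMap.smul_apply, h, Polynomial.eval_mul, Polynomial.eval_mul, Polynomial.eval_C,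
      Polynomial.eval_C, map_mul, Complex.conj_conj, smul_eq_mul]
    ring

theorem approx {r : ℝ} (hr : 0 < r) {g : ℂ → ℝ} (hg : ContinuousOn g (sphere 0 r)) {ε : ℝ}
    (hε : 0 < ε) : ∃ P : Polynomial ℂ, ∀ w : ℂ, ‖w‖ = r → |(P.eval w).re - g w| < ε := by
  have : Fact (0 < 2 * Real.pi) := ⟨Real.two_pi_pos⟩
  have hc : Continuous fun x : AddCircle (2 * Real.pi) => (r : ℂ) * (AddCircle.toCircle x : ℂ) :=
    continuous_const.mul (continuous_subtype_val.comp AddCircle.continuous_toCircle)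
  have hn : ∀ x : AddCircle (2 * Real.pi), (r : ℂ) * (AddCircle.toCircle x : ℂ) ∈ sphere (0:ℂ) r := by
    intro x
    rw [mem_sphere_zero_iff_norm, norm_mul, Circle.norm_coe, mul_one, Complex.norm_real,
      Real.norm_of_nonneg hr.le]
  let G : C(AddCircle (2 * Real.pi), ℂ) :=
    ⟨fun x => ((g ((r : ℂ) * (AddCircle.toCircle x : ℂ)) : ℝ) : ℂ),
      Complex.continuous_ofReal.comp (hg.comp_continuous hc hn)⟩
  have hG : G ∈ (Submodule.span ℂ (Set.range (@fourier (2 * Real.pi)))).topologicalClosure := by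
    rw [span_fourier_closure_eq_top]
    trivial
  rw [← SetLike.mem_coe, Submodule.topologicalClosure_coe, Metric.mem_closure_iff] at hG
  obtain ⟨p, hp, hd⟩ := hG ε hε
  obtain ⟨P, Q, h⟩ := trig_poly hr p hp
  refine ⟨P + Q, fun w hw => ?_⟩
  set x : AddCircle (2 * Real.pi) := ((arg w : ℝ) : AddCircle (2 * Real.pi)) with hx
  have hwx : w = (r : ℂ) * (AddCircle.toCircle x : ℂ) := by
    rw [hx, AddCircle.toCircle_apply_mk, Circle.coe_exp, div_self Real.two_pi_pos.ne', one_mul, ← hw]
    exact (Complex.norm_mul_exp_arg_mul_I w).symm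
  have h1 : ((P + Q).eval w).re = (p x).re := by
    rw [h x, ← hwx, Polynomial.eval_add, Complex.add_re, Complex.add_re, Complex.conj_re]
  have h2 : g w = (G x).re := by
    show g w = (((g ((r : ℂ) * (AddCircle.toCircle x : ℂ)) : ℝ) : ℂ)).re
    rw [← hwx, Complex.ofReal_re]
  rw [h1, h2, ← Complex.sub_re]
  refine (Complex.abs_re_le_norm _).trans_lt ?_
  rw [← dist_eq_norm, dist_comm]
  exact (ContinuousMap.dist_apply_le_dist x).trans_lt hd

theorem le_exp_posLog {x : ℝ} (hx : 0 ≤ x) : x ≤ Real.exp (Real.posLog x) := by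
  rcases hx.eq_or_lt with rfl | hx
  · exact (Real.exp_pos _).le
  · calc x = Real.exp (Real.log x) := (Real.exp_log hx).symm
      _ ≤ _ := Real.exp_le_exp.2 (by rw [Real.posLog_def]; exact le_max_right _ _)

theorem exists_majorant (f : R) {r : ℝ} (hr : 0 < r) (hr1 : r < 1) : ∃ F : R, IsUnit F ∧
    (∀ w, ‖w‖ ≤ r → 1 ≤ ‖F.1 w‖ ∧ ‖f.1 w‖ ≤ ‖F.1 w‖) ∧ Real.log ‖F.1 0‖ ≤ T f r + 1 := by
  have hsub : sphere (0:ℂ) r ⊆ ball (0:ℂ) 1 := sphere_subset_closedBall.trans (closedBall_sub hr1)
  have hg : ContinuousOn (fun w => Real.posLog ‖f.1 w‖ + 1 / 2) (sphere 0 r) :=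
    (Real.continuous_posLog.comp_continuousOn (f.diff.continuousOn.mono hsub).norm).add_const _
  obtain ⟨P, hP⟩ := approx hr hg (half_pos one_pos)
  have hlow : ∀ w, ‖w‖ = r → Real.posLog ‖f.1 w‖ ≤ (P.eval w).re := by
    intro w hw
    have := (abs_lt.1 (hP w hw)).1
    linarith
  have hupp : ∀ w, ‖w‖ = r → (P.eval w).re ≤ Real.posLog ‖f.1 w‖ + 1 := by
    intro w hw
    have := (abs_lt.1 (hP w hw)).2
    linarith
  have hPd : Differentiable ℂ fun w => exp (P.eval w) := (P.differentiable).cexp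
  have hF : ∀ w ∈ ball (0:ℂ) 1, (mk _ hPd.differentiableOn).1 w = exp (P.eval w) :=
    fun w hw => mk_apply _ hw
  refine ⟨mk _ hPd.differentiableOn, ?_, ?_, ?_⟩
  · rw [isUnit_iff]
    intro z hz
    rw [hF z hz]
    exact exp_ne_zero _
  · have hfr : frontier (ball (0:ℂ) r) = sphere 0 r := frontier_ball _ hr.ne'
    have hcl : closure (ball (0:ℂ) r) = closedBall 0 r := closure_ball _ hr.ne'
    have hmax : ∀ k : ℂ → ℂ, DifferentiableOn ℂ k (ball 0 1) →
        (∀ w, ‖w‖ = r → ‖k w‖ ≤ ‖exp (P.eval w)‖) → ∀ w, ‖w‖ ≤ r → ‖k w‖ ≤ ‖exp (P.eval w)‖ := by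
      intro k hk hb w hw
      have h1 : DifferentiableOn ℂ (fun w => k w / exp (P.eval w)) (ball (0:ℂ) 1) :=
        hk.div hPd.differentiableOn (fun w _ => exp_ne_zero _)
      have h2 : DiffContOnCl ℂ (fun w => k w / exp (P.eval w)) (ball (0:ℂ) r) := by
        apply DifferentiableOn.diffContOnCl
        rw [hcl]
        exact h1.mono (closedBall_sub hr1)
      have h3 := Complex.norm_le_of_forall_mem_frontier_norm_le (U := ball (0:ℂ) r) (C := 1)
        isBounded_ball h2 (by
          intro z hz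
          rw [hfr, mem_sphere_zero_iff_norm] at hz
          rw [norm_div]
          exact div_le_one_of_le₀ (hb z hz) (norm_nonneg _)) (z := w) (by
          rw [hcl, mem_closedBall_zero_iff]
          exact hw)
      rw [norm_div, div_le_one (norm_pos_iff.2 (exp_ne_zero _))] at h3
      exact h3
    intro w hw
    have hwb : w ∈ ball (0:ℂ) 1 := closedBall_sub hr1 (by rwa [mem_closedBall_zero_iff])
    rw [hF w hwb]
    constructor
    · have := hmax (fun _ => 1) (differentiableOn_const _) (by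
        intro z hz
        rw [norm_one, Complex.norm_exp]
        exact Real.one_le_exp (Real.posLog_nonneg.trans (hlow z hz))) w hw
      simpa using this
    · apply hmax f.1 f.diff _ w hw
      intro z hz
      rw [Complex.norm_exp]
      exact (le_exp_posLog (norm_nonneg _)).trans (Real.exp_le_exp.2 (hlow z hz))
  · rw [hF 0 zmem, Complex.norm_exp, Real.log_exp, T_eq]
    have habs : |r| = r := abs_of_pos hr
    have h1 : HarmonicOnNhd (fun w => (P.eval w).re) (closedBall 0 |r|) := fun w _ =>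
      (P.differentiable.analyticAt w).harmonicAt_re
    rw [← InnerProductSpace.HarmonicOnNhd.circleAverage_eq h1]
    have h2 : Real.circleAverage (fun w => Real.posLog ‖f.1 w‖) 0 r + 1 =
        Real.circleAverage (fun w => Real.posLog ‖f.1 w‖ + (fun _ => (1:ℝ)) w) 0 r := by
      rw [Real.circleAverage_fun_add (integrable_T f hr.le hr1)
        (continuousOn_const.circleIntegrable hr.le), Real.circleAverage_const]
    rw [h2]
    apply Real.circleAverage_mono
    · exact ContinuousOn.circleIntegrable hr.le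
        (Complex.continuous_re.comp P.continuous).continuousOn
    · exact ContinuousOn.circleIntegrable hr.le
        ((Real.continuous_posLog.comp_continuousOn (f.diff.continuousOn.mono hsub).norm).add
          continuousOn_const)
    · intro w hw
      rw [habs, mem_sphere_zero_iff_norm] at hw
      exact hupp w hw

end Q201.HD
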