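import Pool.Agent.Q201.HD.Const
import Pool.Agent.Q201.HD.Major

set_option autoImplicit false

/-!
A first order description of the functions which are not admissible.
-/

namespace Q201.HD

open Metric Set Complex InnerProductSpace

/-- The first order property. Here `z` is a function with values in the disc, `p` a base point, `E` is a
constant multiple of `(1 - z) ^ (-c)`, and for all constants `c'` of absolute value less than one there
is a unit `F` which bounds `1` and `f` at all points with `|z| ≤ |c'|`, such that the value of `F` at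
`p` is bounded by a value of `E` at a point with `|z| ≤ |c'|`. -/
def NA {A : Type} [CommRing A] (f : A) : Prop :=
  ∃ z p E c : A, (∀ q, Irreducible q → ¬ Le q 1 z) ∧ Irreducible p ∧ Cst c ∧ ODE z E c ∧
    ∀ c' : A, Cst c' → ¬ Le p 1 c' → ∃ F, IsUnit F ∧
      (∀ q, Irreducible q → Le q z c' → Le q 1 F ∧ Le q f F) ∧
      ∃ ε q, Cst ε ∧ Irreducible q ∧ Le q z c' ∧ Le q ε E ∧ Le p F ε

/-- the corresponding statement on functions -/
def NAs (f : R) : Prop :=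
  ∃ z E : R, ∃ b ∈ ball (0:ℂ) 1, ∃ c : ℂ, (∀ a ∈ ball (0:ℂ) 1, ‖z.1 a‖ < 1) ∧
    (∀ a ∈ ball (0:ℂ) 1, (1 - z.1 a) * deriv E.1 a = c * E.1 a * deriv z.1 a) ∧
    ∀ c' : ℂ, ‖c'‖ < 1 → ∃ F : R, IsUnit F ∧
      (∀ a ∈ ball (0:ℂ) 1, ‖z.1 a‖ ≤ ‖c'‖ → 1 ≤ ‖F.1 a‖ ∧ ‖f.1 a‖ ≤ ‖F.1 a‖) ∧
      ∃ a ∈ ball (0:ℂ) 1, ‖z.1 a‖ ≤ ‖c'‖ ∧ ‖F.1 b‖ ≤ ‖E.1 a‖

theorem na_iff_nas (f : R) : NA f ↔ NAs f := by
  have hne : ∀ z : R, (∀ a ∈ ball (0:ℂ) 1, ‖z.1 a‖ < 1) → ∀ a ∈ ball (0:ℂ) 1, z.1 a ≠ 1 := by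
    intro z hz a ha h
    have := hz a ha
    rw [h, norm_one] at this
    exact lt_irrefl _ this
  have hz1 : ∀ z : R, (∀ q, Irreducible q → ¬ Le q 1 z) ↔ ∀ a ∈ ball (0:ℂ) 1, ‖z.1 a‖ < 1 := by
    intro z
    apply forall_irr
    intro a ha p hap
    rw [le_iff ha hap, one_apply, norm_one, not_le]
  have hmaj : ∀ (z F : R) (c' : ℂ), (∀ q, Irreducible q → Le q z (C c') → Le q 1 F ∧ Le q f F) ↔
      ∀ a ∈ ball (0:ℂ) 1, ‖z.1 a‖ ≤ ‖c'‖ → 1 ≤ ‖F.1 a‖ ∧ ‖f.1 a‖ ≤ ‖F.1 a‖ := by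
    intro z F c'
    apply forall_irr
    intro a ha p hap
    rw [le_iff ha hap, le_iff ha hap, le_iff ha hap, C_apply, one_apply, norm_one]
  constructor
  · rintro ⟨z, p, E, c, hz, hp, hc, hode, h⟩
    obtain ⟨c, rfl⟩ := cst_iff.1 hc
    obtain ⟨b, hb, hbp⟩ := Irreducible.exists_zero hp
    rw [hz1] at hz
    rw [ode_iff (hne z hz)] at hode
    refine ⟨z, E, b, hb, c, hz, hode, fun c' hc' => ?_⟩
    obtain ⟨F, hF, hm, ε, q, hε, hq, h1, h2, h3⟩ := h (C c') (cst_iff.2 ⟨_, rfl⟩) (by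
      rw [le_iff hb hbp, C_apply, one_apply, norm_one, not_le]
      exact hc')
    rw [hmaj] at hm
    obtain ⟨ε, rfl⟩ := cst_iff.1 hε
    obtain ⟨a, ha, haq⟩ := Irreducible.exists_zero hq
    rw [le_iff ha haq, C_apply] at h1 h2
    rw [le_iff hb hbp, C_apply] at h3
    exact ⟨F, hF, hm, a, ha, h1, h3.trans h2⟩
  · rintro ⟨z, E, b, hb, c, hz, hode, h⟩
    refine ⟨z, X b, E, C c, (hz1 z).2 hz, irreducible_X hb, cst_iff.2 ⟨_, rfl⟩,
      (ode_iff (hne z hz)).2 hode, ?_⟩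
    intro c' hc' hle
    obtain ⟨c', rfl⟩ := cst_iff.1 hc'
    rw [le_iff hb (Associated.refl _), C_apply, one_apply, norm_one, not_le] at hle
    obtain ⟨F, hF, hm, a, ha, h1, h2⟩ := h c' hle
    refine ⟨F, hF, (hmaj z F c').2 hm, C (F.1 b), X a, cst_iff.2 ⟨_, rfl⟩, irreducible_X ha, ?_, ?_, ?_⟩
    · rw [le_iff ha (Associated.refl _), C_apply]
      exact h1
    · rw [le_iff ha (Associated.refl _), C_apply]
      exact h2
    · rw [le_iff hb (Associated.refl _), C_apply]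

/-! ### From the first order property to the growth -/

theorem one_sub_norm {z : R} (hz : ∀ a ∈ ball (0:ℂ) 1, ‖z.1 a‖ < 1) {w : ℂ} (hw : w ∈ ball (0:ℂ) 1) :
    (1 - ‖z.1 0‖) / 4 * (1 - ‖w‖) ≤ 1 - ‖z.1 w‖ := by
  have hw' : ‖w‖ < 1 := by rwa [mem_ball_zero_iff] at hw
  obtain ⟨e, he, hez⟩ : ∃ e : ℂ, ‖e‖ = 1 ∧ e * z.1 w = ‖z.1 w‖ := by
    refine ⟨exp (((-arg (z.1 w) : ℝ) : ℂ) * I), Complex.norm_exp_ofReal_mul_I _, ?_⟩
    have h1 := Complex.norm_mul_exp_arg_mul_I (z.1 w)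
    have h2 : exp (((-arg (z.1 w) : ℝ) : ℂ) * I) * exp ((arg (z.1 w) : ℂ) * I) = 1 := by
      rw [← Complex.exp_add]
      have : (((-arg (z.1 w) : ℝ) : ℂ) * I) + (arg (z.1 w) : ℂ) * I = 0 := by push_cast; ring
      rw [this, Complex.exp_zero]
    calc exp (((-arg (z.1 w) : ℝ) : ℂ) * I) * z.1 w
        = exp (((-arg (z.1 w) : ℝ) : ℂ) * I) * (‖z.1 w‖ * exp ((arg (z.1 w) : ℂ) * I)) := by rw [h1]
      _ = ‖z.1 w‖ * (exp (((-arg (z.1 w) : ℝ) : ℂ) * I) * exp ((arg (z.1 w) : ℂ) * I)) := by ring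
      _ = _ := by rw [h2, mul_one]
  have hre : ∀ ζ ∈ ball (0:ℂ) 1, (e * z.1 ζ).re ≤ ‖z.1 ζ‖ := by
    intro ζ hζ
    refine (Complex.re_le_norm _).trans ?_
    rw [norm_mul, he, one_mul]
  set ρ := (1 + ‖w‖) / 2 with hρ
  have hρ1 : ρ < 1 := by rw [hρ]; linarith
  have hρw : ‖w‖ < ρ := by rw [hρ]; linarith
  have hharm : HarmonicOnNhd (fun ζ => (1 - e * z.1 ζ).re) (closedBall 0 ρ) := fun ζ hζ => by
    apply AnalyticAt.harmonicAt_re
    exact analyticAt_const.sub (analyticAt_const.mul (z.analytic hρ1 ζ hζ))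
  have h1 := harnack hharm (fun ζ hζ => by
    have hζ' : ζ ∈ ball (0:ℂ) 1 := by
      rw [mem_ball_zero_iff]
      exact hζ.trans_lt hρ1
    have h2 := hre ζ hζ'
    have h3 := hz ζ hζ'
    rw [Complex.sub_re, Complex.one_re]
    linarith) hρw
  simp only [Complex.sub_re, Complex.one_re, hez, Complex.ofReal_re] at h1
  refine le_trans ?_ h1
  have h2 := hre 0 zmem
  simp only [Complex.mul_re] at h2
  have h3 := hz 0 zmem
  have h4 : (1 - ‖w‖) / 4 ≤ (ρ - ‖w‖) / (ρ + ‖w‖) := by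
    have h5 : 0 < ρ + ‖w‖ := by
      have := norm_nonneg w
      rw [hρ]
      linarith
    rw [div_le_div_iff₀ (by norm_num) h5]
    have := norm_nonneg w
    rw [hρ]
    nlinarith
  have h5 : (0:ℝ) ≤ (1 - ‖w‖) / 4 := by linarith
  simp only [Complex.mul_re]
  calc (1 - ‖z.1 0‖) / 4 * (1 - ‖w‖) = (1 - ‖w‖) / 4 * (1 - ‖z.1 0‖) := by ring
    _ ≤ (ρ - ‖w‖) / (ρ + ‖w‖) * (1 - ‖z.1 0‖) := mul_le_mul_of_nonneg_right h4 (by linarith)
    _ ≤ _ := mul_le_mul_of_nonneg_left (by linarith) (h5.trans h4)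

theorem ode_bound {z E : R} {c : ℂ} (hz : ∀ a ∈ ball (0:ℂ) 1, ‖z.1 a‖ < 1)
    (hode : ∀ a ∈ ball (0:ℂ) 1, (1 - z.1 a) * deriv E.1 a = c * E.1 a * deriv z.1 a) :
    ∃ M : ℝ, 0 < M ∧ ∀ a ∈ ball (0:ℂ) 1,
      ‖E.1 a‖ ≤ M * Real.exp (‖c‖ * (Real.log 2 + Real.pi - Real.log (1 - ‖z.1 a‖))) := by
  have hre : ∀ a ∈ ball (0:ℂ) 1, 0 < (1 - z.1 a).re := by
    intro a ha
    have h1 := hz a ha
    have h2 := Complex.re_le_norm (z.1 a)
    rw [Complex.sub_re, Complex.one_re]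
    linarith
  have hsl : ∀ a ∈ ball (0:ℂ) 1, 1 - z.1 a ∈ slitPlane := fun a ha => Or.inl (hre a ha)
  have hder : ∀ a ∈ ball (0:ℂ) 1, HasDerivAt (fun w => E.1 w * exp (c * log (1 - z.1 w))) 0 a := by
    intro a ha
    have h1 : HasDerivAt (fun w => log (1 - z.1 w)) ((0 - deriv z.1 a) / (1 - z.1 a)) a :=
      ((hasDerivAt_const a (1:ℂ)).sub (z.hasDerivAt ha)).clog (hsl a ha)
    have h2 := (E.hasDerivAt ha).mul ((h1.const_mul c).cexp)
    refine h2.congr_deriv ?_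
    have h3 : 1 - z.1 a ≠ 0 := slitPlane_ne_zero (hsl a ha)
    have h4 := hode a ha
    field_simp
    linear_combination (exp (c * log (1 - z.1 a))) * h4
  have hconst : ∀ a ∈ ball (0:ℂ) 1, E.1 a * exp (c * log (1 - z.1 a)) =
      E.1 0 * exp (c * log (1 - z.1 0)) := by
    intro a ha
    exact isOpen_ball.is_const_of_deriv_eq_zero (convex_ball _ _).isPreconnected
      (fun w hw => (hder w hw).differentiableAt.differentiableWithinAt)
      (fun w hw => (hder w hw).deriv) ha zmem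
  set K := ‖E.1 0 * exp (c * log (1 - z.1 0))‖ with hK
  refine ⟨K + 1, by positivity, fun a ha => ?_⟩
  have h1 := congrArg norm (hconst a ha)
  rw [← hK, norm_mul] at h1
  have h2 : ‖log (1 - z.1 a)‖ ≤ Real.log 2 + Real.pi - Real.log (1 - ‖z.1 a‖) := by
    refine (Complex.norm_le_abs_re_add_abs_im _).trans ?_
    rw [Complex.log_re, Complex.log_im]
    have h3 := Complex.abs_arg_le_pi (1 - z.1 a)
    have h4 := hz a ha
    have h5 : 1 - ‖z.1 a‖ ≤ ‖1 - z.1 a‖ := by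
      have := norm_sub_norm_le (1:ℂ) (z.1 a)
      rwa [norm_one] at this
    have h6 : ‖1 - z.1 a‖ ≤ 2 := by
      have := norm_sub_le (1:ℂ) (z.1 a)
      rw [norm_one] at this
      linarith
    have h7 : Real.log (1 - ‖z.1 a‖) ≤ Real.log ‖1 - z.1 a‖ := Real.log_le_log (by linarith) h5
    have h8 : Real.log ‖1 - z.1 a‖ ≤ Real.log 2 := Real.log_le_log (by linarith) h6
    have h9 : Real.log (1 - ‖z.1 a‖) ≤ 0 :=
      Real.log_nonpos (by linarith) (by have := norm_nonneg (z.1 a); linarith)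
    have h10 : 0 ≤ Real.log 2 := Real.log_nonneg (by norm_num)
    have h11 : |Real.log ‖1 - z.1 a‖| ≤ Real.log 2 - Real.log (1 - ‖z.1 a‖) := by
      rw [abs_le]
      constructor <;> linarith
    linarith
  have h3 : Real.exp (-(‖c‖ * (Real.log 2 + Real.pi - Real.log (1 - ‖z.1 a‖)))) ≤
      ‖exp (c * log (1 - z.1 a))‖ := by
    rw [Complex.norm_exp, Real.exp_le_exp]
    have h4 := (abs_le.1 (Complex.abs_re_le_norm (c * log (1 - z.1 a)))).1
    rw [norm_mul] at h4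
    have h5 := mul_le_mul_of_nonneg_left h2 (norm_nonneg c)
    linarith
  have h4 : ‖E.1 a‖ * Real.exp (-(‖c‖ * (Real.log 2 + Real.pi - Real.log (1 - ‖z.1 a‖)))) ≤ K := by
    rw [← h1]
    exact mul_le_mul_of_nonneg_left h3 (norm_nonneg _)
  rw [Real.exp_neg, ← div_eq_mul_inv, div_le_iff₀ (Real.exp_pos _)] at h4
  refine h4.trans ?_
  exact mul_le_mul_of_nonneg_right (by linarith) (Real.exp_pos _).le

theorem T_nonneg (f : R) (r : ℝ) : 0 ≤ T f r := by
  rw [T_eq]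
  exact Real.circleAverage_nonneg_of_nonneg (fun _ _ => Real.posLog_nonneg)

theorem bigO_of_nas {f : R} (h : NAs f) : Asymptotics.IsBigO (nhdsWithin (1:ℝ) (Set.Iio 1)) (T f)
    (fun r : ℝ => Real.log (1 - r)⁻¹) := by
  obtain ⟨z, E, b, hb, c, hz, hode, h⟩ := h
  obtain ⟨M, hM, hE⟩ := ode_bound hz hode
  have hb' : ‖b‖ < 1 := by rwa [mem_ball_zero_iff] at hb
  have hz0 := hz 0 zmem
  set κ := (1 - ‖z.1 0‖) / 4 with hκ
  have hκ0 : 0 < κ := by rw [hκ]; linarith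
  have hκ1 : κ ≤ 1 / 4 := by
    have := norm_nonneg (z.1 0)
    rw [hκ]; linarith
  set η := (1 - ‖b‖) / 4 with hη
  have hη0 : 0 < η := by rw [hη]; linarith
  set B := |Real.log M + ‖c‖ * (Real.log 2 + Real.pi - Real.log κ)| with hB
  -- the bound for `r` near one
  have key : ∀ r : ℝ, (1 + ‖b‖) / 2 ≤ r → r < 1 → η * T f r ≤ B + ‖c‖ * Real.log (1 - r)⁻¹ := by
    intro r hr0 hr1
    have hbn := norm_nonneg b
    have hrpos : 0 < r := by linarith
    have hbr : ‖b‖ < r := by linarith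
    have hc0 : 0 ≤ 1 - κ * (1 - r) := by nlinarith
    have hnc : ‖((1 - κ * (1 - r) : ℝ) : ℂ)‖ = 1 - κ * (1 - r) := by
      rw [Complex.norm_real, Real.norm_of_nonneg hc0]
    obtain ⟨F, hF, hm, a, ha, hza, hFE⟩ := h ((1 - κ * (1 - r) : ℝ) : ℂ) (by
      rw [hnc]
      have := mul_pos hκ0 (sub_pos.2 hr1)
      linarith)
    rw [hnc] at hza hm
    have hm' : ∀ w, ‖w‖ ≤ r → 1 ≤ ‖F.1 w‖ ∧ ‖f.1 w‖ ≤ ‖F.1 w‖ := by
      intro w hw
      have hwb : w ∈ ball (0:ℂ) 1 := by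
        rw [mem_ball_zero_iff]
        exact hw.trans_lt hr1
      apply hm w hwb
      have h1 := one_sub_norm hz hwb
      rw [← hκ] at h1
      nlinarith
    have h1 := T_le hF hrpos.le hr1 hm'
    have h2 := harnack (harmonic_log hF hr1) (fun w hw => Real.log_nonneg (hm' w hw).1) hbr
    have h0 : 0 ≤ Real.log ‖F.1 0‖ := Real.log_nonneg (hm' 0 (by rw [norm_zero]; exact hrpos.le)).1
    have h3 : η ≤ (r - ‖b‖) / (r + ‖b‖) := by
      rw [hη, div_le_div_iff₀ (by norm_num) (by linarith)]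
      nlinarith
    have h4 : η * Real.log ‖F.1 0‖ ≤ Real.log ‖F.1 b‖ :=
      (mul_le_mul_of_nonneg_right h3 h0).trans h2
    have hFb : 1 ≤ ‖F.1 b‖ := (hm' b hbr.le).1
    have hza1 := hz a ha
    have h5 : Real.log ‖F.1 b‖ ≤
        Real.log M + ‖c‖ * (Real.log 2 + Real.pi - Real.log (1 - ‖z.1 a‖)) := by
      have h6 := hFE.trans (hE a ha)
      have h7 := Real.log_le_log (by linarith) h6
      rwa [Real.log_mul hM.ne' (Real.exp_pos _).ne', Real.log_exp] at h7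
    have h6 : Real.log κ + Real.log (1 - r) ≤ Real.log (1 - ‖z.1 a‖) := by
      rw [← Real.log_mul hκ0.ne' (by linarith)]
      exact Real.log_le_log (mul_pos hκ0 (by linarith)) (by linarith)
    have h7 : ‖c‖ * (Real.log 2 + Real.pi - Real.log (1 - ‖z.1 a‖)) ≤
        ‖c‖ * (Real.log 2 + Real.pi - (Real.log κ + Real.log (1 - r))) :=
      mul_le_mul_of_nonneg_left (by linarith) (norm_nonneg _)
    have h8 := le_abs_self (Real.log M + ‖c‖ * (Real.log 2 + Real.pi - Real.log κ))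
    rw [← hB] at h8
    rw [Real.log_inv]
    have h9 : η * T f r ≤ η * Real.log ‖F.1 0‖ := mul_le_mul_of_nonneg_left h1 hη0.le
    nlinarith
  apply Asymptotics.IsBigO.of_bound ((B + ‖c‖) / η)
  have hev1 : ∀ᶠ r : ℝ in nhdsWithin (1:ℝ) (Set.Iio 1), (1 + ‖b‖) / 2 ≤ r := by
    apply nhdsWithin_le_nhds
    exact Ici_mem_nhds (by linarith)
  have hev2 : ∀ᶠ r : ℝ in nhdsWithin (1:ℝ) (Set.Iio 1), 1 - Real.exp (-1) ≤ r := by
    apply nhdsWithin_le_nhds
    exact Ici_mem_nhds (by have := Real.exp_pos (-1); linarith)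
  filter_upwards [hev1, hev2, self_mem_nhdsWithin] with r hr1 hr2 hr3
  rw [Set.mem_Iio] at hr3
  have h1 := key r hr1 hr3
  have h2 : 1 ≤ Real.log (1 - r)⁻¹ := by
    rw [Real.log_inv]
    have h3 : Real.log (1 - r) ≤ Real.log (Real.exp (-1)) := Real.log_le_log (by linarith) (by linarith)
    rw [Real.log_exp] at h3
    linarith
  have hB0 : 0 ≤ B := abs_nonneg _
  rw [Real.norm_of_nonneg (T_nonneg f r), Real.norm_of_nonneg (by linarith), div_mul_eq_mul_div,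
    le_div_iff₀ hη0]
  nlinarith

/-! ### From the growth to the first order property -/

theorem nas_of_bigO {f : R} (h : Asymptotics.IsBigO (nhdsWithin (1:ℝ) (Set.Iio 1)) (T f)
    (fun r : ℝ => Real.log (1 - r)⁻¹)) : NAs f := by
  obtain ⟨K0, hK0⟩ := h.bound
  -- a bound for `r` near one
  obtain ⟨r1, hr1, hr1'⟩ : ∃ r1 < (1:ℝ), ∀ r, r1 < r → r < 1 → ‖T f r‖ ≤ K0 * ‖Real.log (1 - r)⁻¹‖ := by
    rw [Filter.eventually_iff, mem_nhdsLT_iff_exists_Ioo_subset] at hK0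
    obtain ⟨l, hl, hl'⟩ := hK0
    exact ⟨l, hl, fun r h1 h2 => hl' ⟨h1, h2⟩⟩
  set r2 := max r1 (1 / 2) with hr2
  have hr2pos : 0 < r2 := lt_of_lt_of_le (by norm_num) (le_max_right _ _)
  have hr2' : r2 < 1 := max_lt hr1 (by norm_num)
  obtain ⟨F1, hF1, hm1, -⟩ := exists_majorant f hr2pos hr2'
  set M1 := Real.log ‖F1.1 0‖ with hM1
  have hM1' : 0 ≤ M1 := Real.log_nonneg (hm1 0 (by rw [norm_zero]; exact hr2pos.le)).1
  set K := max K0 0 with hK
  have hK' : 0 ≤ K := le_max_right _ _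
  have hT : ∀ r, 0 ≤ r → r < 1 → T f r ≤ M1 - K * Real.log (1 - r) := by
    intro r h0 h1
    have hL : 0 ≤ Real.log (1 - r)⁻¹ := by
      rw [Real.log_inv]
      have := Real.log_nonpos (x := 1 - r) (by linarith) (by linarith)
      linarith
    rcases le_or_gt r r2 with h2 | h2
    · have h3 := T_le hF1 h0 h1 (fun w hw => hm1 w (hw.trans h2))
      rw [← hM1] at h3
      rw [Real.log_inv] at hL
      nlinarith
    · have h3 := hr1' r (lt_of_le_of_lt (le_max_left _ _) h2) h1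
      rw [Real.norm_of_nonneg (T_nonneg f r), Real.norm_of_nonneg hL] at h3
      have h4 : K0 * Real.log (1 - r)⁻¹ ≤ K * Real.log (1 - r)⁻¹ :=
        mul_le_mul_of_nonneg_right (le_max_left _ _) hL
      rw [Real.log_inv] at h3 h4
      linarith
  -- the function `E`
  set M := K * Real.log 2 + M1 + 1 with hM
  have hEd : DifferentiableOn ℂ (fun w => exp ((M : ℂ) - (K : ℂ) * log (1 - w))) (ball (0:ℂ) 1) := by
    intro w hw
    have hsl : 1 - w ∈ slitPlane := by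
      left
      rw [Complex.sub_re, Complex.one_re]
      have h1 := Complex.re_le_norm w
      rw [mem_ball_zero_iff] at hw
      linarith
    apply DifferentiableAt.differentiableWithinAt
    exact ((differentiableAt_const _).sub ((differentiableAt_const _).mul
      (((differentiableAt_const _).sub differentiableAt_id).clog hsl))).cexp
  have hX : ∀ a ∈ ball (0:ℂ) 1, (X 0).1 a = a := fun a ha => by rw [X_apply 0 ha, sub_zero]
  refine ⟨X 0, mk _ hEd, 0, zmem, (K : ℂ), ?_, ?_, ?_⟩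
  · intro a ha
    rw [hX a ha]
    rwa [mem_ball_zero_iff] at ha
  · intro a ha
    have hsl : 1 - a ∈ slitPlane := by
      left
      rw [Complex.sub_re, Complex.one_re]
      have h1 := Complex.re_le_norm a
      rw [mem_ball_zero_iff] at ha
      linarith
    have h1 : (mk _ hEd).1 =ᶠ[nhds a] fun w => exp ((M : ℂ) - (K : ℂ) * log (1 - w)) := by
      filter_upwards [isOpen_ball.mem_nhds ha] with z hz using mk_apply hEd hz
    have h2 : (X 0).1 =ᶠ[nhds a] fun w => w := by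
      filter_upwards [isOpen_ball.mem_nhds ha] with z hz using hX z hz
    have h3 : HasDerivAt (fun w => exp ((M : ℂ) - (K : ℂ) * log (1 - w)))
        (exp ((M : ℂ) - (K : ℂ) * log (1 - a)) * (0 - (K : ℂ) * ((0 - 1) / (1 - a)))) a :=
      ((hasDerivAt_const a (M : ℂ)).sub ((((hasDerivAt_const a (1:ℂ)).sub
        (hasDerivAt_id a)).clog hsl).const_mul (K : ℂ))).cexp
    have h4 : 1 - a ≠ 0 := slitPlane_ne_zero hsl
    rw [h1.deriv_eq, h3.deriv, h2.deriv_eq, mk_apply hEd ha, hX a ha]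
    have h5 : deriv (fun w : ℂ => w) a = 1 := (hasDerivAt_id a).deriv
    rw [h5]
    field_simp
    ring
  · intro c' hc'
    have hn := norm_nonneg c'
    set r := (1 + ‖c'‖) / 2 with hr
    have hr0 : 0 < r := by rw [hr]; linarith
    have hr1 : r < 1 := by rw [hr]; linarith
    obtain ⟨F, hF, hm, hF0⟩ := exists_majorant f hr0 hr1
    have hcb : ((‖c'‖ : ℝ) : ℂ) ∈ ball (0:ℂ) 1 := by
      rw [mem_ball_zero_iff, Complex.norm_real, norm_norm]
      exact hc'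
    refine ⟨F, hF, ?_, ((‖c'‖ : ℝ) : ℂ), hcb, ?_, ?_⟩
    · intro a ha hac
      rw [hX a ha] at hac
      exact hm a (by rw [hr]; linarith)
    · rw [hX _ hcb, Complex.norm_real, norm_norm]
    · rw [mk_apply hEd hcb, Complex.norm_exp]
      have h1 : log (1 - ((‖c'‖ : ℝ) : ℂ)) = ((Real.log (1 - ‖c'‖) : ℝ) : ℂ) := by
        rw [Complex.ofReal_log (by linarith)]
        push_cast
        rfl
      have h2 : ((M : ℂ) - (K : ℂ) * log (1 - ((‖c'‖ : ℝ) : ℂ))).re = M - K * Real.log (1 - ‖c'‖) := by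
        rw [h1, ← Complex.ofReal_mul, ← Complex.ofReal_sub, Complex.ofReal_re]
      rw [h2]
      have h3 : 1 ≤ ‖F.1 0‖ := (hm 0 (by rw [norm_zero]; exact hr0.le)).1
      rw [← Real.exp_log (show 0 < ‖F.1 0‖ by linarith), Real.exp_le_exp]
      refine hF0.trans ?_
      have h4 := hT r hr0.le hr1
      have h5 : Real.log (1 - r) = Real.log (1 - ‖c'‖) - Real.log 2 := by
        rw [← Real.log_div (by linarith) (by norm_num), hr]
        congr 1
        ring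
      rw [h5] at h4
      rw [hM]
      linarith

theorem na_iff (f : R) : NA f ↔ Asymptotics.IsBigO (nhdsWithin (1:ℝ) (Set.Iio 1)) (T f)
    (fun r : ℝ => Real.log (1 - r)⁻¹) :=
  (na_iff_nas f).trans ⟨bigO_of_nas, nas_of_bigO⟩

end Q201.HD
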