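import Pool.Agent.Q201.HD.Point

set_option autoImplicit false

/-!
Constants are definable in the ring of holomorphic functions on the disc, and an ordinary differential
equation.
-/

namespace Q201.HD

open Metric Set Complex

section Ring

variable {A : Type} [CommRing A]

/-- absolute value one at all points -/
def Uni (u : A) : Prop := ∀ p : A, Irreducible p → Le p u 1 ∧ Le p 1 u

/-- constants -/
def Cst (f : A) : Prop := ∃ u v : A, Uni u ∧ Uni v ∧ (f = u + v ∨ f * (u + v) = 1)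

/-- the differential equation `(1 - z) dE/dz = c E` -/
def ODE (z E c : A) : Prop := ∀ p : A, Irreducible p → ∃ α β : A, Cst α ∧ Cst β ∧ p ∣ z - β ∧
  p * p ∣ (1 - z) * (E - α) - c * E * (z - β)

end Ring

theorem forall_irr {P : ℂ → Prop} {Q : R → Prop}
    (h : ∀ a ∈ ball (0:ℂ) 1, ∀ p : R, Associated (X a) p → (Q p ↔ P a)) :
    (∀ p, Irreducible p → Q p) ↔ ∀ a ∈ ball (0:ℂ) 1, P a := by
  constructor
  · intro H a ha
    exact (h a ha _ (Associated.refl _)).1 (H _ (irreducible_X ha))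
  · intro H p hp
    obtain ⟨a, ha, hap⟩ := Irreducible.exists_zero hp
    exact (h a ha p hap).2 (H a ha)

theorem uni_iff {u : R} : Uni u ↔ ∃ c : ℂ, ‖c‖ = 1 ∧ u = C c := by
  constructor
  · intro h
    have h1 : ∀ a ∈ ball (0:ℂ) 1, ‖u.1 a‖ = 1 := by
      intro a ha
      have h2 := h (X a) (irreducible_X ha)
      rw [le_iff ha (Associated.refl _), le_iff ha (Associated.refl _)] at h2
      simp only [one_apply, norm_one] at h2
      exact le_antisymm h2.1 h2.2
    refine ⟨u.1 0, h1 0 zmem, R.ext' fun z hz => ?_⟩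
    rw [C_apply]
    have hmax : IsMaxOn (norm ∘ u.1) (ball (0:ℂ) 1) 0 := by
      intro w hw
      simp only [Set.mem_ofPred_eq, Function.comp_apply, h1 w hw, h1 0 zmem, le_refl]
    exact Complex.eqOn_of_isPreconnected_of_isMaxOn_norm (convex_ball _ _).isPreconnected isOpen_ball
      u.diff zmem hmax hz
  · rintro ⟨c, hc, rfl⟩ p hp
    obtain ⟨a, ha, hap⟩ := Irreducible.exists_zero hp
    rw [le_iff ha hap, le_iff ha hap, C_apply, one_apply, norm_one, hc]
    exact ⟨le_refl _, le_refl _⟩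

theorem sum_two (c : ℂ) (h : ‖c‖ ≤ 2) : ∃ u v : ℂ, ‖u‖ = 1 ∧ ‖v‖ = 1 ∧ c = u + v := by
  set θ := arg c with hθ
  set φ := Real.arccos (‖c‖ / 2) with hφ
  refine ⟨exp (((θ + φ : ℝ) : ℂ) * I), exp (((θ - φ : ℝ) : ℂ) * I), Complex.norm_exp_ofReal_mul_I _,
    Complex.norm_exp_ofReal_mul_I _, ?_⟩
  have h1 : Real.cos φ = ‖c‖ / 2 := by
    rw [hφ, Real.cos_arccos]
    · have := norm_nonneg c
      linarith
    · linarith
  have h2 : exp (((θ + φ : ℝ) : ℂ) * I) + exp (((θ - φ : ℝ) : ℂ) * I) =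
      exp ((θ : ℂ) * I) * (2 * cos (φ : ℂ)) := by
    have e1 : (((θ + φ : ℝ) : ℂ) * I) = (θ : ℂ) * I + (φ : ℂ) * I := by push_cast; ring
    have e2 : (((θ - φ : ℝ) : ℂ) * I) = (θ : ℂ) * I + -(φ : ℂ) * I := by push_cast; ring
    rw [e1, e2, Complex.exp_add, Complex.exp_add, Complex.two_cos]
    ring
  rw [h2, ← Complex.ofReal_cos, h1]
  have h3 := Complex.norm_mul_exp_arg_mul_I c
  rw [← hθ] at h3
  rw [← h3]
  push_cast
  rw [norm_mul, Complex.norm_exp_ofReal_mul_I, Complex.norm_real]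
  simp
  ring

theorem cst_iff {f : R} : Cst f ↔ ∃ c : ℂ, f = C c := by
  constructor
  · rintro ⟨u, v, hu, hv, h⟩
    rw [uni_iff] at hu hv
    obtain ⟨c, -, rfl⟩ := hu
    obtain ⟨d, -, rfl⟩ := hv
    rcases h with rfl | h
    · exact ⟨c + d, R.ext' fun z _ => by simp⟩
    · refine ⟨(c + d)⁻¹, R.ext' fun z _ => ?_⟩
      have h1 := congrArg (fun k : R => k.1 z) h
      simp only [mul_apply, add_apply, C_apply, one_apply] at h1
      rw [C_apply]
      exact eq_inv_of_mul_eq_one_left h1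
  · rintro ⟨c, rfl⟩
    by_cases h : ‖c‖ ≤ 2
    · obtain ⟨u, v, hu, hv, rfl⟩ := sum_two c h
      exact ⟨C u, C v, uni_iff.2 ⟨u, hu, rfl⟩, uni_iff.2 ⟨v, hv, rfl⟩,
        Or.inl (R.ext' fun z _ => by simp)⟩
    · push Not at h
      have h0 : c ≠ 0 := by
        rintro rfl
        simp at h
        linarith
      obtain ⟨u, v, hu, hv, huv⟩ := sum_two c⁻¹ (by
        rw [norm_inv]
        have := inv_le_one_of_one_le₀ (show 1 ≤ ‖c‖ by linarith)
        linarith)
      refine ⟨C u, C v, uni_iff.2 ⟨u, hu, rfl⟩, uni_iff.2 ⟨v, hv, rfl⟩,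
        Or.inr (R.ext' fun z _ => ?_)⟩
      simp only [mul_apply, add_apply, C_apply, one_apply]
      rw [← huv, mul_inv_cancel₀ h0]

theorem ode_iff {z E : R} {c : ℂ} (hz : ∀ a ∈ ball (0:ℂ) 1, z.1 a ≠ 1) :
    ODE z E (C c) ↔ ∀ a ∈ ball (0:ℂ) 1, (1 - z.1 a) * deriv E.1 a = c * E.1 a * deriv z.1 a := by
  apply forall_irr
  intro a ha p hap
  have hd : ∀ α β : ℂ, HasDerivAt ((1 - z) * (E - C α) - C c * E * (z - C β)).1
      ((0 - deriv z.1 a) * (E.1 a - α) + (1 - z.1 a) * (deriv E.1 a - 0) -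
        ((0 * E.1 a + c * deriv E.1 a) * (z.1 a - β) + c * E.1 a * (deriv z.1 a - 0))) a := by
    intro α β
    have hC : ∀ γ : ℂ, HasDerivAt (C γ).1 0 a := by
      intro γ
      have : (C γ).1 = fun _ => γ := by
        funext w
        simp
      rw [this]
      exact hasDerivAt_const a γ
    have h := (((hasDerivAt_const a (1:ℂ)).sub (z.hasDerivAt ha)).mul ((E.hasDerivAt ha).sub (hC α))).sub
      ((((hC c).mul (E.hasDerivAt ha)).mul ((z.hasDerivAt ha).sub (hC β))))
    refine HasDerivAt.congr_deriv h ?_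
    simp
  constructor
  · rintro ⟨α, β, hα, hβ, h1, h2⟩
    obtain ⟨α, rfl⟩ := cst_iff.1 hα
    obtain ⟨β, rfl⟩ := cst_iff.1 hβ
    rw [dvd_iff ha hap] at h1
    rw [sq_dvd_iff ha hap, (hd α β).deriv] at h2
    simp only [sub_apply, C_apply, mul_apply, one_apply] at h1 h2
    have hβ' : β = z.1 a := by linear_combination -h1
    subst hβ'
    have hα' : E.1 a - α = 0 := by
      have h3 := h2.1
      rw [sub_self, mul_zero, sub_zero] at h3
      rcases mul_eq_zero.1 h3 with h4 | h4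
      · exact absurd (by linear_combination -h4) (hz a ha)
      · exact h4
    have h4 := h2.2
    rw [hα'] at h4
    linear_combination h4
  · intro h
    refine ⟨C (E.1 a), C (z.1 a), cst_iff.2 ⟨_, rfl⟩, cst_iff.2 ⟨_, rfl⟩, ?_, ?_⟩
    · rw [dvd_iff ha hap]
      simp
    · rw [sq_dvd_iff ha hap, (hd _ _).deriv]
      simp only [sub_apply, C_apply, mul_apply, one_apply]
      refine ⟨by ring, by linear_combination h⟩

end Q201.HD
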