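import Mathlib

set_option autoImplicit false

/-!
Closure properties of the predicates on tuples of elements of a ring which are defined by first order
formulas.
-/

namespace Q201.HD.Form

open FirstOrder FirstOrder.Language

variable {M : Type} [CommRing M] [FirstOrder.Ring.CompatibleRing M]

/-- definable predicates on tuples -/
def D {n : ℕ} (P : (Fin n → M) → Prop) : Prop :=
  ∃ φ : Language.ring.Formula (Fin n), ∀ v, φ.Realize v ↔ P v

/-- functions given by terms -/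
def Tm {n : ℕ} (t : (Fin n → M) → M) : Prop :=
  ∃ τ : Language.ring.Term (Fin n), ∀ v, τ.realize v = t v

variable {n : ℕ}

theorem Tm.var (i : Fin n) : Tm (fun v : Fin n → M => v i) := ⟨Term.var i, fun _ => rfl⟩

theorem Tm.wk {t : (Fin n → M) → M} (h : Tm t) : Tm (fun w : Fin (n + 1) → M => t (fun i => w i.succ)) := by
  obtain ⟨τ, hτ⟩ := h
  refine ⟨τ.relabel Fin.succ, fun v => ?_⟩
  rw [Term.realize_relabel, hτ]
  rfl

theorem Tm.add {s t : (Fin n → M) → M} (hs : Tm s) (ht : Tm t) : Tm (fun v => s v + t v) := by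
  obtain ⟨σ, hσ⟩ := hs
  obtain ⟨τ, hτ⟩ := ht
  exact ⟨σ + τ, fun v => by rw [FirstOrder.Ring.realize_add, hσ, hτ]⟩

theorem Tm.mul {s t : (Fin n → M) → M} (hs : Tm s) (ht : Tm t) : Tm (fun v => s v * t v) := by
  obtain ⟨σ, hσ⟩ := hs
  obtain ⟨τ, hτ⟩ := ht
  exact ⟨σ * τ, fun v => by rw [FirstOrder.Ring.realize_mul, hσ, hτ]⟩

theorem Tm.neg {s : (Fin n → M) → M} (hs : Tm s) : Tm (fun v => -s v) := by
  obtain ⟨σ, hσ⟩ := hs
  exact ⟨-σ, fun v => by rw [FirstOrder.Ring.realize_neg, hσ]⟩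

theorem Tm.sub {s t : (Fin n → M) → M} (hs : Tm s) (ht : Tm t) : Tm (fun v => s v - t v) := by
  obtain ⟨τ, hτ⟩ := hs.add ht.neg
  exact ⟨τ, fun v => (hτ v).trans (sub_eq_add_neg _ _).symm⟩

theorem Tm.one : Tm (fun _ : Fin n → M => (1 : M)) := ⟨1, fun v => by rw [FirstOrder.Ring.realize_one]⟩

theorem D.congr {P Q : (Fin n → M) → Prop} (h : D P) (hPQ : ∀ v, P v ↔ Q v) : D Q := by
  obtain ⟨φ, hφ⟩ := h
  exact ⟨φ, fun v => (hφ v).trans (hPQ v)⟩

theorem D.eq {s t : (Fin n → M) → M} (hs : Tm s) (ht : Tm t) : D (fun v => s v = t v) := by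
  obtain ⟨σ, hσ⟩ := hs
  obtain ⟨τ, hτ⟩ := ht
  exact ⟨σ.equal τ, fun v => by rw [Formula.realize_equal, hσ, hτ]⟩

theorem D.not {P : (Fin n → M) → Prop} (h : D P) : D (fun v => ¬ P v) := by
  obtain ⟨φ, hφ⟩ := h
  exact ⟨φ.not, fun v => by rw [Formula.realize_not, hφ]⟩

theorem D.imp {P Q : (Fin n → M) → Prop} (h : D P) (h' : D Q) : D (fun v => P v → Q v) := by
  obtain ⟨φ, hφ⟩ := h
  obtain ⟨φ', hφ'⟩ := h'
  exact ⟨φ.imp φ', fun v => by rw [Formula.realize_imp, hφ, hφ']⟩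

theorem D.and {P Q : (Fin n → M) → Prop} (h : D P) (h' : D Q) : D (fun v => P v ∧ Q v) :=
  (h.imp h'.not).not.congr (fun v => by tauto)

theorem D.or {P Q : (Fin n → M) → Prop} (h : D P) (h' : D Q) : D (fun v => P v ∨ Q v) :=
  (h.not.imp h').congr (fun v => by tauto)

theorem D.ex {P : (Fin n → M) → M → Prop}
    (h : D (fun w : Fin (n + 1) → M => P (fun i => w i.succ) (w 0))) :
    D (fun v => ∃ x, P v x) := by
  obtain ⟨φ, hφ⟩ := h
  let g : Fin (n + 1) → Fin n ⊕ Fin 1 := Fin.cases (Sum.inr 0) Sum.inl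
  refine ⟨(φ.relabel g).iExs (Fin 1), fun v => ?_⟩
  rw [Formula.realize_iExs]
  have key : ∀ w : Fin 1 → M, (φ.relabel g).Realize (fun a => Sum.elim v w a) ↔ P v (w 0) := by
    intro w
    rw [Formula.realize_relabel, hφ]
    rfl
  constructor
  · rintro ⟨w, hw⟩
    exact ⟨w 0, (key w).1 hw⟩
  · rintro ⟨x, hx⟩
    exact ⟨fun _ => x, (key _).2 hx⟩

theorem D.all {P : (Fin n → M) → M → Prop}
    (h : D (fun w : Fin (n + 1) → M => P (fun i => w i.succ) (w 0))) :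
    D (fun v => ∀ x, P v x) :=
  (D.ex (P := fun v x => ¬ P v x) h.not).not.congr (fun v => by push Not; rfl)

theorem D.isUnit {s : (Fin n → M) → M} (hs : Tm s) : D (fun v => IsUnit (s v)) :=
  (D.ex (P := fun v x => s v * x = 1) (D.eq (hs.wk.mul (Tm.var 0)) Tm.one)).congr
    (fun _ => isUnit_iff_exists_inv.symm)

theorem D.dvd {s t : (Fin n → M) → M} (hs : Tm s) (ht : Tm t) : D (fun v => s v ∣ t v) :=
  (D.ex (P := fun v x => t v = s v * x) (D.eq ht.wk (hs.wk.mul (Tm.var 0)))).congr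
    (fun _ => Iff.rfl)

theorem D.irreducible {s : (Fin n → M) → M} (hs : Tm s) : D (fun v => Irreducible (s v)) := by
  refine D.congr (P := fun v => ¬ IsUnit (s v) ∧ ∀ a b : M, s v = a * b → IsUnit a ∨ IsUnit b) ?_
    (fun v => irreducible_iff.symm)
  refine D.and (D.isUnit hs).not (D.all (D.all (D.imp (D.eq hs.wk.wk ?_) (D.or (D.isUnit ?_)
    (D.isUnit ?_)))))
  · exact (Tm.var 1).mul (Tm.var 0)
  · exact Tm.var 1
  · exact Tm.var 0

end Q201.HD.Form
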