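import Pool.Agent.Q201.HD.Char
import Pool.Agent.Q201.HD.Form

set_option autoImplicit false

/-!
The description of the functions which are not admissible is a first order formula.
-/

namespace Q201.HD

open FirstOrder FirstOrder.Language Form

section

variable {M : Type} [CommRing M] [FirstOrder.Ring.CompatibleRing M] {n : ℕ}

theorem D.ss {p δ : (Fin n → M) → M} (hp : Tm p) (hδ : Tm δ) : D (fun v => SS (p v) (δ v)) := by
  unfold SS
  refine D.ex (D.and (D.isUnit (Tm.var 0)) (D.and (D.isUnit (Tm.one.sub (Tm.var 0)))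
    (D.dvd (hp.wk.mul hp.wk) (((Tm.var 0).add Tm.one).sub (hδ.wk.mul hp.wk)))))

theorem D.le {p s t : (Fin n → M) → M} (hp : Tm p) (hs : Tm s) (ht : Tm t) :
    D (fun v => Le (p v) (s v) (t v)) := by
  unfold Le
  refine D.all (D.imp (D.ss hp.wk (Tm.var 0)) (D.ex (D.and (D.ss hp.wk.wk (Tm.var 0))
    (D.dvd hp.wk.wk (Tm.sub (hs.wk.wk.mul ?_) (ht.wk.wk.mul (Tm.var 0)))))))
  exact Tm.var 1

theorem D.uni {u : (Fin n → M) → M} (hu : Tm u) : D (fun v => Uni (u v)) := by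
  unfold Uni
  exact D.all (D.imp (D.irreducible (Tm.var 0)) (D.and (D.le (Tm.var 0) hu.wk Tm.one)
    (D.le (Tm.var 0) Tm.one hu.wk)))

theorem D.cst {f : (Fin n → M) → M} (hf : Tm f) : D (fun v => Cst (f v)) := by
  unfold Cst
  refine D.ex (D.ex (D.and (D.uni ?_) (D.and (D.uni ?_) (D.or (D.eq hf.wk.wk ?_)
    (D.eq (hf.wk.wk.mul ?_) Tm.one)))))
  · exact Tm.var 1
  · exact Tm.var 0
  · exact (Tm.var 1).add (Tm.var 0)
  · exact (Tm.var 1).add (Tm.var 0)

theorem D.ode {z E c : (Fin n → M) → M} (hz : Tm z) (hE : Tm E) (hc : Tm c) :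
    D (fun v => ODE (z v) (E v) (c v)) := by
  unfold ODE
  refine D.all (D.imp (D.irreducible (Tm.var 0)) (D.ex (D.ex (D.and (D.cst ?_) (D.and (D.cst ?_)
    (D.and (D.dvd ?_ (hz.wk.wk.wk.sub ?_)) (D.dvd (Tm.mul ?_ ?_) (Tm.sub
      ((Tm.one.sub hz.wk.wk.wk).mul (hE.wk.wk.wk.sub ?_))
      ((hc.wk.wk.wk.mul hE.wk.wk.wk).mul (hz.wk.wk.wk.sub ?_))))))))))
  · exact Tm.var 1
  · exact Tm.var 0
  · exact Tm.var 2
  · exact Tm.var 0
  · exact Tm.var 2
  · exact Tm.var 2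
  · exact Tm.var 1
  · exact Tm.var 0

theorem D.na {f : (Fin n → M) → M} (hf : Tm f) : D (fun v => NA (f v)) := by
  unfold NA
  -- variables: z = 3, p = 2, E = 1, c = 0
  refine D.ex (D.ex (D.ex (D.ex (D.and ?_ (D.and ?_ (D.and ?_ (D.and ?_ ?_)))))))
  · refine D.all (D.imp (D.irreducible (Tm.var 0)) (D.not (D.le (Tm.var 0) Tm.one ?_)))
    exact Tm.var 4
  · refine D.irreducible ?_
    exact Tm.var 2
  · exact D.cst (Tm.var 0)
  · refine D.ode ?_ ?_ (Tm.var 0)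
    · exact Tm.var 3
    · exact Tm.var 1
  · -- c' = 0, c = 1, E = 2, p = 3, z = 4
    refine D.all (D.imp (D.cst (Tm.var 0)) (D.imp (D.not (D.le ?_ Tm.one (Tm.var 0))) (D.ex
      (D.and (D.isUnit (Tm.var 0)) (D.and ?_ ?_)))))
    · exact Tm.var 3
    · -- q = 0, F = 1, c' = 2, c = 3, E = 4, p = 5, z = 6
      refine D.all (D.imp (D.irreducible (Tm.var 0)) (D.imp (D.le (Tm.var 0) ?_ ?_)
        (D.and (D.le (Tm.var 0) Tm.one ?_) (D.le (Tm.var 0) hf.wk.wk.wk.wk.wk.wk.wk ?_))))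
      · exact Tm.var 6
      · exact Tm.var 2
      · exact Tm.var 1
      · exact Tm.var 1
    · -- q = 0, ε = 1, F = 2, c' = 3, c = 4, E = 5, p = 6, z = 7
      refine D.ex (D.ex (D.and (D.cst ?_) (D.and (D.irreducible (Tm.var 0)) (D.and
        (D.le (Tm.var 0) ?_ ?_) (D.and (D.le (Tm.var 0) ?_ ?_) (D.le ?_ ?_ ?_))))))
      · exact Tm.var 1
      · exact Tm.var 7
      · exact Tm.var 3
      · exact Tm.var 1
      · exact Tm.var 5
      · exact Tm.var 6
      · exact Tm.var 2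
      · exact Tm.var 1

end

end Q201.HD
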