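import Pool.Agent.Q201.HD.Basic
import Pool.Agent.Q127.CR.Ana

set_option autoImplicit false

/-!
The absolute values at a point of the disc can be compared in terms of the ring structure.
-/

namespace Q201.HD

open Metric Set Complex

/-! ### Self maps of the disc -/

theorem normSq_id (a z c : ℂ) :
    normSq ((1 - star a * z) + star a * (c * (z - a))) - normSq (c * (z - a) + a * (1 - star a * z)) =
      (1 - normSq a) * (normSq (1 - star a * z) - normSq c * normSq (z - a)) := by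
  simp only [normSq_apply, star_def, add_re, sub_re, one_re, mul_re, conj_re, conj_im, add_im, sub_im,
    one_im, mul_im]
  ring

theorem normSq_id' (a z : ℂ) :
    normSq (1 - star a * z) - normSq (z - a) = (1 - normSq a) * (1 - normSq z) := by
  simp only [normSq_apply, star_def, sub_re, one_re, mul_re, conj_re, conj_im, sub_im,
    one_im, mul_im]
  ring

theorem normSq_lt {z : ℂ} (hz : z ∈ ball (0:ℂ) 1) : normSq z < 1 := by
  rw [mem_ball_zero_iff] at hz
  rw [normSq_eq_norm_sq]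
  have := norm_nonneg z
  nlinarith

theorem key_pos {a z c : ℂ} (ha : a ∈ ball (0:ℂ) 1) (hz : z ∈ ball (0:ℂ) 1) (hc : ‖c‖ ≤ 1) :
    normSq (c * (z - a) + a * (1 - star a * z)) <
      normSq ((1 - star a * z) + star a * (c * (z - a))) := by
  have h1 := normSq_id a z c
  have h2 := normSq_id' a z
  have h3 := normSq_lt ha
  have h4 := normSq_lt hz
  have h5 : normSq c ≤ 1 := by
    rw [normSq_eq_norm_sq]
    have := norm_nonneg c
    nlinarith
  have h6 : normSq c * normSq (z - a) ≤ normSq (z - a) := by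
    have := normSq_nonneg (z - a)
    nlinarith
  have h7 : 0 < (1 - normSq a) * (1 - normSq z) := mul_pos (by linarith) (by linarith)
  have h8 : 0 < normSq (1 - star a * z) - normSq c * normSq (z - a) := by linarith
  have h9 := mul_pos (show 0 < 1 - normSq a by linarith) h8
  linarith

theorem exists_selfmap {a : ℂ} (ha : a ∈ ball (0:ℂ) 1) {c : ℂ} (hc : ‖c‖ ≤ 1) :
    ∃ ψ : ℂ → ℂ, DifferentiableOn ℂ ψ (ball 0 1) ∧ MapsTo ψ (ball 0 1) (ball 0 1) ∧ ψ a = a ∧
      HasDerivAt ψ c a := by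
  have hne : ∀ z ∈ ball (0:ℂ) 1, (1 - star a * z) + star a * (c * (z - a)) ≠ 0 := by
    intro z hz h0
    have h1 := key_pos ha hz hc
    rw [h0, map_zero] at h1
    exact absurd h1 (not_lt.2 (normSq_nonneg _))
  refine ⟨fun z => (c * (z - a) + a * (1 - star a * z)) / ((1 - star a * z) + star a * (c * (z - a))),
    ?_, ?_, ?_, ?_⟩
  · apply DifferentiableOn.div
    · fun_prop
    · fun_prop
    · exact hne
  · intro z hz
    rw [mem_ball_zero_iff, norm_div, div_lt_one (norm_pos_iff.2 (hne z hz))]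
    have h1 := key_pos ha hz hc
    rw [normSq_eq_norm_sq, normSq_eq_norm_sq] at h1
    exact lt_of_pow_lt_pow_left₀ 2 (norm_nonneg _) h1
  · have h1 := hne a ha
    simp only [sub_self, mul_zero, zero_add, add_zero] at h1 ⊢
    exact mul_div_cancel_right₀ _ h1
  · have h1 := hne a ha
    have h2 : HasDerivAt (fun z : ℂ => c * (z - a) + a * (1 - star a * z))
        (c * 1 + a * (-(star a * 1))) a :=
      (((hasDerivAt_id a).sub_const a).const_mul c).add
        ((((hasDerivAt_id a).const_mul (star a)).const_sub 1).const_mul a)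
    have h3 : HasDerivAt (fun z : ℂ => (1 - star a * z) + star a * (c * (z - a)))
        (-(star a * 1) + star a * (c * 1)) a :=
      (((hasDerivAt_id a).const_mul (star a)).const_sub 1).add
        ((((hasDerivAt_id a).sub_const a).const_mul c).const_mul (star a))
    have h4 := h2.div h3 h1
    refine h4.congr_deriv ?_
    simp only [sub_self, mul_zero, add_zero] at h1 ⊢
    rw [div_eq_iff (pow_ne_zero 2 h1)]
    ring

/-! ### The set of derivatives -/

/-- the values at `a` of the derivatives of the functions without the values `0` and `1`, with the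
value `-1` at `a` -/
def DD (a : ℂ) : Set ℂ := {w | ∃ u : R, IsUnit u ∧ IsUnit (1 - u) ∧ u.1 a = -1 ∧ deriv u.1 a = w}

theorem DD_mul {a : ℂ} (ha : a ∈ ball (0:ℂ) 1) {c w : ℂ} (hc : ‖c‖ ≤ 1) (hw : w ∈ DD a) :
    c * w ∈ DD a := by
  obtain ⟨u, hu, hu1, hua, rfl⟩ := hw
  obtain ⟨ψ, hψ, hm, hψa, hψd⟩ := exists_selfmap ha hc
  have hd : DifferentiableOn ℂ (fun z => u.1 (ψ z)) (ball (0:ℂ) 1) := u.diff.comp hψ hm
  refine ⟨mk _ hd, ?_, ?_, ?_, ?_⟩
  · rw [isUnit_iff]
    intro z hz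
    rw [mk_apply hd hz]
    exact isUnit_iff.1 hu _ (hm hz)
  · rw [isUnit_iff]
    intro z hz
    rw [sub_apply, one_apply, mk_apply hd hz]
    exact isUnit_iff.1 hu1 _ (hm hz)
  · rw [mk_apply hd ha, hψa, hua]
  · have h1 : (mk _ hd).1 =ᶠ[nhds a] fun z => u.1 (ψ z) := by
      filter_upwards [isOpen_ball.mem_nhds ha] with z hz using mk_apply hd hz
    rw [h1.deriv_eq]
    have h2 : HasDerivAt u.1 (deriv u.1 a) (ψ a) := by
      rw [hψa]
      exact u.hasDerivAt ha
    have h3 := (h2.comp a hψd).deriv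
    rw [show (fun z => u.1 (ψ z)) = u.1 ∘ ψ from rfl, h3, mul_comm]

theorem DD_bdd {a : ℂ} (ha : a ∈ ball (0:ℂ) 1) : ∃ M, ∀ w ∈ DD a, ‖w‖ ≤ M := by
  obtain ⟨K, hK⟩ := Pool.Agent.Q127.CR.schottky 1
  have hr : 0 < 1 - ‖a‖ := by
    rw [mem_ball_zero_iff] at ha
    linarith
  refine ⟨K / ((1 - ‖a‖) / 4), ?_⟩
  rintro w ⟨u, hu, hu1, hua, rfl⟩
  have hsub : ball a (1 - ‖a‖) ⊆ ball (0:ℂ) 1 := by
    apply ball_subset_ball'
    rw [dist_zero_right]
    linarith
  have h1 := hK u.1 a (1 - ‖a‖) hr (u.diff.mono hsub) (fun z hz => by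
    refine ⟨isUnit_iff.1 hu z (hsub hz), fun h => ?_⟩
    have := isUnit_iff.1 hu1 z (hsub hz)
    rw [sub_apply, one_apply, h, sub_self] at this
    exact this rfl) (by rw [hua]; simp)
  apply Complex.norm_deriv_le_of_forall_mem_sphere_norm_le (by linarith)
  · have h2 : DifferentiableOn ℂ u.1 (ball (0:ℂ) 1) := u.diff
    apply (h2.mono _).diffContOnCl
    rw [closure_ball _ (by linarith)]
    exact (closedBall_subset_ball (by linarith)).trans hsub
  · intro z hz
    apply h1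
    rw [mem_ball]
    rw [mem_sphere] at hz
    linarith

theorem DD_ne {a : ℂ} (ha : a ∈ ball (0:ℂ) 1) : ∃ w ∈ DD a, w ≠ 0 := by
  have hd : DifferentiableOn ℂ (fun z => -1 + (z - a) / 2) (ball (0:ℂ) 1) := by fun_prop
  have hb : ∀ z ∈ ball (0:ℂ) 1, ‖(z - a) / 2‖ < 1 := by
    intro z hz
    rw [mem_ball_zero_iff] at ha hz
    rw [norm_div, Complex.norm_ofNat]
    have := norm_sub_le z a
    linarith
  refine ⟨1 / 2, ⟨mk _ hd, ?_, ?_, ?_, ?_⟩, by norm_num⟩
  · rw [isUnit_iff]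
    intro z hz
    rw [mk_apply hd hz]
    intro h
    have h1 := hb z hz
    rw [show (z - a) / 2 = 1 by linear_combination h, norm_one] at h1
    exact lt_irrefl _ h1
  · rw [isUnit_iff]
    intro z hz
    rw [sub_apply, one_apply, mk_apply hd hz]
    intro h
    have h1 := hb z hz
    rw [show (z - a) / 2 = 2 by linear_combination -h, Complex.norm_ofNat] at h1
    norm_num at h1
  · rw [mk_apply hd ha]
    simp
  · have h1 : (mk _ hd).1 =ᶠ[nhds a] fun z => -1 + (z - a) / 2 := by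
      filter_upwards [isOpen_ball.mem_nhds ha] with z hz using mk_apply hd hz
    rw [h1.deriv_eq]
    exact ((((hasDerivAt_id a).sub_const a).div_const 2).const_add (-1)).deriv

/-! ### Comparison at a point -/

section Ring

variable {A : Type} [CommRing A]

/-- `δ` modulo `p` is a derivative of a unit `u` with `1 - u` a unit and `u ≡ -1` -/
def SS (p δ : A) : Prop := ∃ u, IsUnit u ∧ IsUnit (1 - u) ∧ p * p ∣ u + 1 - δ * p

/-- comparison of absolute values at the zero of `p` -/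
def Le (p s t : A) : Prop := ∀ δ, SS p δ → ∃ ε, SS p ε ∧ p ∣ s * δ - t * ε

end Ring

theorem Associated.dvd_iff' {p q : R} (h : Associated q p) (f : R) : p ∣ f ↔ q ∣ f :=
  h.symm.dvd_iff_dvd_left

theorem zero_of_assoc {a : ℂ} (ha : a ∈ ball (0:ℂ) 1) {p : R} (h : Associated (X a) p) :
    p.1 a = 0 ∧ deriv p.1 a ≠ 0 := by
  obtain ⟨v, rfl⟩ := h
  have hv := isUnit_iff.1 v.isUnit a ha
  have h2 : (X a).1 a = 0 := by rw [X_apply a ha, sub_self]
  have h1 : HasDerivAt (X a * (v : R)).1 (1 * (v : R).1 a + (X a).1 a * deriv (v : R).1 a) a :=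
    (hasDerivAt_X ha).mul (R.hasDerivAt _ ha)
  refine ⟨by rw [mul_apply, h2, zero_mul], ?_⟩
  rw [h1.deriv, h2]
  simpa using hv

theorem dvd_iff {a : ℂ} (ha : a ∈ ball (0:ℂ) 1) {p : R} (h : Associated (X a) p) (f : R) :
    p ∣ f ↔ f.1 a = 0 := by
  rw [h.symm.dvd_iff_dvd_left, X_dvd_iff ha]

theorem sq_dvd_iff {a : ℂ} (ha : a ∈ ball (0:ℂ) 1) {p : R} (h : Associated (X a) p) (f : R) :
    p * p ∣ f ↔ f.1 a = 0 ∧ deriv f.1 a = 0 := by
  rw [(h.symm.mul_mul h.symm).dvd_iff_dvd_left, X_sq_dvd_iff ha]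

theorem SS_iff {a : ℂ} (ha : a ∈ ball (0:ℂ) 1) {p : R} (h : Associated (X a) p) (δ : R) :
    SS p δ ↔ δ.1 a * deriv p.1 a ∈ DD a := by
  obtain ⟨h0, -⟩ := zero_of_assoc ha h
  constructor
  · rintro ⟨u, hu, hu1, hd⟩
    rw [sq_dvd_iff ha h] at hd
    have h1 : HasDerivAt (u + 1 - δ * p).1 (deriv u.1 a + 0 -
        (deriv δ.1 a * p.1 a + δ.1 a * deriv p.1 a)) a :=
      ((u.hasDerivAt ha).add (hasDerivAt_const a 1)).sub ((δ.hasDerivAt ha).mul (p.hasDerivAt ha))
    rw [h1.deriv, h0] at hd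
    simp only [sub_apply, add_apply, one_apply, mul_apply, h0] at hd
    refine ⟨u, hu, hu1, by linear_combination hd.1, by linear_combination hd.2⟩
  · rintro ⟨u, hu, hu1, hua, hud⟩
    refine ⟨u, hu, hu1, ?_⟩
    rw [sq_dvd_iff ha h]
    have h1 : HasDerivAt (u + 1 - δ * p).1 (deriv u.1 a + 0 -
        (deriv δ.1 a * p.1 a + δ.1 a * deriv p.1 a)) a :=
      ((u.hasDerivAt ha).add (hasDerivAt_const a 1)).sub ((δ.hasDerivAt ha).mul (p.hasDerivAt ha))
    rw [h1.deriv, h0]
    simp only [sub_apply, add_apply, one_apply, mul_apply, h0]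
    exact ⟨by linear_combination hua, by linear_combination hud⟩

theorem le_iff {a : ℂ} (ha : a ∈ ball (0:ℂ) 1) {p : R} (h : Associated (X a) p) (s t : R) :
    Le p s t ↔ ‖s.1 a‖ ≤ ‖t.1 a‖ := by
  obtain ⟨-, hp⟩ := zero_of_assoc ha h
  set q := deriv p.1 a with hq
  constructor
  · intro hle
    by_contra hcon
    push Not at hcon
    have hs : s.1 a ≠ 0 := by
      intro h0
      rw [h0, norm_zero] at hcon
      exact absurd hcon (not_lt.2 (norm_nonneg _))
    obtain ⟨M, hM⟩ := DD_bdd ha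
    obtain ⟨w0, hw0, hw0'⟩ := DD_ne ha
    set B := sSup (norm '' DD a) with hB
    have hbdd : BddAbove (norm '' DD a) := ⟨M, by rintro _ ⟨w, hw, rfl⟩; exact hM w hw⟩
    have hB0 : 0 < B := (norm_pos_iff.2 hw0').trans_le (le_csSup hbdd ⟨w0, hw0, rfl⟩)
    have hle' : ∀ x ∈ norm '' DD a, x ≤ ‖t.1 a‖ / ‖s.1 a‖ * B := by
      rintro _ ⟨w, hw, rfl⟩
      obtain ⟨ε, hε, hd⟩ := hle (C (w / q)) (by
        rw [SS_iff ha h, C_apply, div_mul_cancel₀ _ hp]
        exact hw)
      rw [SS_iff ha h] at hε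
      rw [dvd_iff ha h] at hd
      simp only [sub_apply, mul_apply, C_apply] at hd
      have h1 : s.1 a * w = t.1 a * (ε.1 a * q) := by
        field_simp at hd
        linear_combination hd
      have h2 : ‖s.1 a‖ * ‖w‖ = ‖t.1 a‖ * ‖ε.1 a * q‖ := by
        rw [← norm_mul, h1, norm_mul]
      have h3 : ‖ε.1 a * q‖ ≤ B := le_csSup hbdd ⟨_, hε, rfl⟩
      have h4 : 0 < ‖s.1 a‖ := norm_pos_iff.2 hs
      rw [div_mul_eq_mul_div, le_div_iff₀ h4]
      calc ‖w‖ * ‖s.1 a‖ = ‖t.1 a‖ * ‖ε.1 a * q‖ := by rw [← h2]; ring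
        _ ≤ _ := mul_le_mul_of_nonneg_left h3 (norm_nonneg _)
    have h5 : B ≤ ‖t.1 a‖ / ‖s.1 a‖ * B := csSup_le ⟨_, w0, hw0, rfl⟩ hle'
    have h6 : ‖t.1 a‖ / ‖s.1 a‖ < 1 := by
      rw [div_lt_one (norm_pos_iff.2 hs)]
      exact hcon
    nlinarith
  · intro hle δ hδ
    by_cases ht : t.1 a = 0
    · refine ⟨δ, hδ, ?_⟩
      rw [dvd_iff ha h]
      have hs : s.1 a = 0 := by
        rw [ht, norm_zero] at hle
        exact norm_le_zero_iff.1 hle
      simp [hs, ht]
    · refine ⟨C (s.1 a / t.1 a) * δ, ?_, ?_⟩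
      · rw [SS_iff ha h] at hδ ⊢
        rw [mul_apply, C_apply, mul_assoc]
        apply DD_mul ha _ hδ
        rw [norm_div]
        exact div_le_one_of_le₀ hle (norm_nonneg _)
      · rw [dvd_iff ha h]
        simp only [sub_apply, mul_apply, C_apply]
        field_simp
        ring

end Q201.HD
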